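import Pool.Agent.helper6.EV.Spec
import Pool.Agent.helper30.LD.J0

/-!
# Project ev: QR, finitely many low zeros, conjugation
-/

set_option autoImplicit false

namespace Pool.Agent.EV

open N1f72dd46 Filter MeasureTheory Complex Metric Pool.Agent.helper6.LD

theorem QR : QR_stmt := by
  rintro ⟨δ, T0, hδ, h0⟩
  have hlt : ∀ ρ : ℂ, riemannZeta ρ = 0 → ρ.re < 1 := by
    intro ρ hρ
    by_contra h
    exact riemannZeta_ne_zero_of_one_le_re (not_lt.1 h) hρ
  have hfin := zeros_finite (S := closedBall (0 : ℂ) (|T0| + 1)) isBounded_closedBall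
  classical
  let F : Finset ℝ := insert (1 / 2 : ℝ) (insert (1 - δ) (hfin.toFinset.image Complex.re))
  have hF : F.Nonempty := Finset.insert_nonempty _ _
  refine ⟨F.max' hF, ?_, ?_⟩
  · rw [Finset.max'_lt_iff]
    intro y hy
    simp only [F, Finset.mem_insert, Finset.mem_image, Set.Finite.mem_toFinset] at hy
    rcases hy with rfl | rfl | ⟨ρ, hρ, rfl⟩
    · norm_num
    · linarith
    · exact hlt ρ hρ.2
  · intro s hs hz
    have h1 : (1 / 2 : ℝ) ≤ F.max' hF := Finset.le_max' _ _ (by simp [F])
    have h2 : (1 - δ : ℝ) ≤ F.max' hF := Finset.le_max' _ _ (by simp [F])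
    by_cases h3 : |s.im| ≤ |T0|
    · have h4 : s.re ≤ F.max' hF := by
        apply Finset.le_max'
        simp only [F, Finset.mem_insert, Finset.mem_image, Set.Finite.mem_toFinset]
        refine Or.inr (Or.inr ⟨s, ⟨?_, hz⟩, rfl⟩)
        rw [mem_closedBall, dist_zero_right]
        have h5 := Complex.norm_le_abs_re_add_abs_im s
        have h6 : |s.re| ≤ 1 := by
          rw [abs_le]
          constructor
          · linarith
          · exact (hlt s hz).le
        linarith
      linarith
    · rw [not_le] at h3
      have h5 : T0 ≤ |s.im| := (le_abs_self T0).trans h3.le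
      rcases abs_cases s.im with ⟨h6, -⟩ | ⟨h6, -⟩
      · rw [h6] at h5
        have := h0 s hz h5
        linarith
      · rw [h6] at h5
        have hz' : riemannZeta ((starRingEnd ℂ) s) = 0 := by
          rw [riemannZeta_conj, hz, map_zero]
        have := h0 _ hz' (by rw [Complex.conj_im]; exact h5)
        rw [Complex.conj_re] at this
        linarith

end Pool.Agent.EV
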