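import Pool.Agent.helper6.EV.Spec
import Pool.Agent.helper85.LD.G1

/-!
# Project ev: ZT, the function `(s - 1) ζ(s)`
-/

set_option autoImplicit false

namespace Pool.Agent.EV

open N1f72dd46 Filter MeasureTheory Complex Metric Pool.Agent.helper6.LD

theorem ZT_ne (s : ℂ) (hs : s ≠ 1) : Zt s = (s - 1) * riemannZeta s := by
  unfold Zt
  rw [Function.update_of_ne hs]

theorem ZT_one : Zt 1 = 1 := by
  unfold Zt
  rw [Function.update_self]

theorem ZT_diff : Differentiable ℂ Zt := by
  rw [← differentiableOn_univ,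
    ← differentiableOn_compl_singleton_and_continuousAt_iff (c := 1) Filter.univ_mem]
  refine ⟨?_, ?_⟩
  · intro s hs
    have hs1 : s ≠ 1 := fun h => hs.2 h
    have h1 : DifferentiableAt ℂ (fun s => (s - 1) * riemannZeta s) s :=
      (differentiableAt_id.sub_const 1).mul (differentiableAt_riemannZeta hs1)
    have h2 : (fun s => (s - 1) * riemannZeta s) =ᶠ[nhds s] Zt := by
      filter_upwards [isOpen_ne.mem_nhds hs1] with z hz
      exact (ZT_ne z hz).symm
    exact (h2.differentiableAt_iff.1 h1).differentiableWithinAt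
  · unfold Zt
    rw [continuousAt_update_same]
    exact riemannZeta_residue_one

theorem ZT_right : ∃ C : ℝ, 0 < C ∧ ∀ s : ℂ, 2 ≤ s.re → ‖riemannZeta s‖ ≤ C := by
  have hsum : Summable fun n : ℕ => 1 / ((n : ℝ) + 1) ^ (2 : ℝ) := by
    have h1 : Summable fun n : ℕ => 1 / ((n : ℝ)) ^ (2 : ℝ) := by
      rw [Real.summable_one_div_nat_rpow]
      norm_num
    have h2 := (summable_nat_add_iff 1).2 h1
    simpa using h2
  refine ⟨(∑' n : ℕ, 1 / ((n : ℝ) + 1) ^ (2 : ℝ)) + 1, ?_, ?_⟩
  · have : 0 ≤ ∑' n : ℕ, 1 / ((n : ℝ) + 1) ^ (2 : ℝ) := tsum_nonneg (fun n => by positivity)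
    linarith
  · intro s hs
    rw [zeta_eq_tsum_one_div_nat_add_one_cpow (by linarith)]
    have hle : ∀ n : ℕ, ‖1 / ((n : ℂ) + 1) ^ s‖ ≤ 1 / ((n : ℝ) + 1) ^ (2 : ℝ) := by
      intro n
      have h0 : ((n : ℂ) + 1) = (((n : ℝ) + 1 : ℝ) : ℂ) := by push_cast; rfl
      have hpos : (0 : ℝ) < (n : ℝ) + 1 := by positivity
      rw [norm_div, norm_one, h0, Complex.norm_cpow_eq_rpow_re_of_pos hpos]
      apply one_div_le_one_div_of_le (by positivity)
      exact Real.rpow_le_rpow_of_exponent_le (by linarith [(Nat.cast_nonneg n : (0 : ℝ) ≤ n)]) hs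
    have h1 := tsum_of_norm_bounded hsum.hasSum hle
    linarith

theorem ZT : ZT_stmt := by
  refine ⟨ZT_diff, ZT_ne, ZT_one, ?_, ?_⟩
  · obtain ⟨C1, hC1, h1⟩ := Pool.Agent.helper6.LD.zeta_growth
    obtain ⟨C2, hC2, h2⟩ := ZT_right
    have hK : IsCompact (closedBall (0 : ℂ) 3) := isCompact_closedBall 0 3
    obtain ⟨C3, h3⟩ := hK.exists_bound_of_continuousOn ZT_diff.continuous.continuousOn
    refine ⟨C1 + C2 + |C3|, by positivity, fun s hs => ?_⟩
    have hn : 0 ≤ ‖s‖ := norm_nonneg s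
    have hsub : ‖s - 1‖ ≤ 1 + ‖s‖ := by
      have := norm_sub_le s 1
      rw [norm_one] at this
      linarith
    have hab : (0 : ℝ) ≤ |C3| := abs_nonneg _
    have hsq : (1 : ℝ) ≤ (1 + ‖s‖) ^ 2 := by nlinarith
    have key : ∀ D : ℝ, 0 ≤ D → D ≤ C1 + C2 + |C3| → ‖Zt s‖ ≤ D * (1 + ‖s‖) ^ 2 →
        ‖Zt s‖ ≤ (C1 + C2 + |C3|) * (1 + ‖s‖) ^ 2 := fun D _ hD h =>
      h.trans (mul_le_mul_of_nonneg_right hD (by positivity))
    by_cases him : 1 ≤ |s.im|
    · have hs1 : s ≠ 1 := by
        rintro rfl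
        norm_num at him
      apply key C1 hC1.le (by linarith)
      rw [ZT_ne s hs1, norm_mul]
      calc ‖s - 1‖ * ‖riemannZeta s‖ ≤ (1 + ‖s‖) * (C1 * ‖s‖) :=
            mul_le_mul hsub (h1 s hs him) (norm_nonneg _) (by positivity)
        _ ≤ (1 + ‖s‖) * (C1 * (1 + ‖s‖)) := by
            apply mul_le_mul_of_nonneg_left _ (by positivity)
            apply mul_le_mul_of_nonneg_left _ hC1.le
            linarith
        _ = C1 * (1 + ‖s‖) ^ 2 := by ring
    · rw [not_le] at him
      by_cases hre : 2 ≤ s.re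
      · have hs1 : s ≠ 1 := by
          rintro rfl
          norm_num at hre
        apply key C2 hC2.le (by linarith)
        rw [ZT_ne s hs1, norm_mul]
        calc ‖s - 1‖ * ‖riemannZeta s‖ ≤ (1 + ‖s‖) * C2 :=
              mul_le_mul hsub (h2 s hre) (norm_nonneg _) (by positivity)
          _ = C2 * (1 + ‖s‖) := by ring
          _ ≤ C2 * (1 + ‖s‖) ^ 2 := by
              apply mul_le_mul_of_nonneg_left _ hC2.le
              nlinarith
      · rw [not_le] at hre
        apply key |C3| hab (by linarith)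
        have hmem : s ∈ closedBall (0 : ℂ) 3 := by
          rw [mem_closedBall, dist_zero_right]
          have h5 := Complex.norm_le_abs_re_add_abs_im s
          have h6 : |s.re| ≤ 2 := by
            rw [abs_le]
            constructor <;> linarith
          linarith
        have h7 := h3 s hmem
        have h8 := le_abs_self C3
        nlinarith
  · intro t
    have hs1 : (2 + (t : ℂ) * I) ≠ 1 := by
      intro h
      have := congrArg Complex.re h
      simp at this
    rw [ZT_ne _ hs1, norm_mul]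
    have h1 : (1 : ℝ) ≤ ‖(2 + (t : ℂ) * I) - 1‖ := by
      have h2 := Complex.abs_re_le_norm ((2 + (t : ℂ) * I) - 1)
      have h3 : ((2 + (t : ℂ) * I) - 1).re = 1 := by
        simp
        norm_num
      rw [h3, abs_one] at h2
      exact h2
    have h2 := Pool.Agent.helper6.LD.zeta_lower (s := 2 + (t : ℂ) * I) (by simp)
    calc (1 / 4 : ℝ) = 1 * (1 / 4) := by ring
      _ ≤ ‖(2 + (t : ℂ) * I) - 1‖ * ‖riemannZeta (2 + (t : ℂ) * I)‖ :=
        mul_le_mul h1 h2 (by norm_num) (by positivity)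

end Pool.Agent.EV
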